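import Mathlib
import Pool.Agent.Helper40.Renorm

set_option autoImplicit false

namespace Pool.Agent.Results.MP_47003a_an.NoSimultaneousNorm

/-- Over the real or the complex numbers there are a Banach space `B` with a Schauder basis `b` and
a complemented subspace `E` such that no norm `N` on `B` which is equivalent to the given one makes
all partial sum projections of the basis contractive and admits a linear projection `P` of `B` onto
`E` with `N (P v) ≤ N v` for all `v`. -/
theorem result (𝕜 : Type) [RCLike 𝕜] :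
    ∃ (B : Type) (_ : NormedAddCommGroup B) (_ : NormedSpace 𝕜 B) (_ : CompleteSpace B)
      (b : SchauderBasis 𝕜 B) (E : Submodule 𝕜 B), E.ClosedComplemented ∧
      ∀ N : Seminorm 𝕜 B, (∃ c C : ℝ, 0 < c ∧ ∀ v, c * ‖v‖ ≤ N v ∧ N v ≤ C * ‖v‖) →
        (∀ n v, N (SchauderBasis.proj b n v) ≤ N v) →
        ∀ P : B →ₗ[𝕜] B, LinearMap.IsProj E P → ¬ ∀ v, N (P v) ≤ N v :=
  Pool.Agent.Helper40.Renorm.main 𝕜

end Pool.Agent.Results.MP_47003a_an.NoSimultaneousNorm
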